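import Pool.Agent.H.MP_4761b7_gt.A

namespace Pool.Agent.Results.MP_4761b7_gt.Gap
open Pool.Agent.H.MP_4761b7_gt

theorem result (n : ℕ) (hn : 1 ≤ n) : (∃ T T' : MT n, T.dI T' < T.intr T') ↔ 2 ≤ n := by
  refine ⟨fun h => ?_, gap⟩
  by_contra h2
  obtain rfl : n = 1 := by omega
  obtain ⟨T, T', h⟩ := h
  exact h.ne' (one T T')

end Pool.Agent.Results.MP_4761b7_gt.Gap
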